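import Pool.Agent.Q171.NF.Fac

/-!
# Gluing groups of automorphisms of two groups to a group of automorphisms of the free product
-/

set_option autoImplicit false

namespace Q171.HI

open Pool.Agent.Y110.FJ (ClosedE)
open Q171.NF

section

variable {N₁ N₂ : Type} [Group N₁] [Group N₂]

/-- `φ` maps `f n` to a conjugate of `f (α n)` for some `α` in `U`, with the same conjugator for all
`n` -/
def IndIn {N P : Type} [Group N] [Group P] (f : N →* P) (U : Subgroup (MulAut N))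
    (φ : MulAut P) : Prop :=
  ∃ x : P, ∃ α ∈ U, ∀ n, φ (f n) = x * f (α n) * x⁻¹

theorem IndIn.one {N P : Type} [Group N] [Group P] (f : N →* P) (U : Subgroup (MulAut N)) :
    IndIn f U 1 := ⟨1, 1, one_mem _, fun n => by
  rw [one_mul, inv_one, mul_one]
  rfl⟩

theorem IndIn.mul {N P : Type} [Group N] [Group P] {f : N →* P} {U : Subgroup (MulAut N)}
    {φ ψ : MulAut P} (h : IndIn f U φ) (h' : IndIn f U ψ) : IndIn f U (φ * ψ) := by
  obtain ⟨x, α, hα, hx⟩ := h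
  obtain ⟨y, β, hβ, hy⟩ := h'
  refine ⟨φ y * x, α * β, mul_mem hα hβ, fun n => ?_⟩
  change φ (ψ (f n)) = φ y * x * f (α (β n)) * (φ y * x)⁻¹
  rw [hy, map_mul, map_mul, hx, map_inv]
  group

theorem IndIn.inv {N P : Type} [Group N] [Group P] {f : N →* P} {U : Subgroup (MulAut N)}
    {φ : MulAut P} (h : IndIn f U φ) : IndIn f U φ⁻¹ := by
  obtain ⟨x, α, hα, hx⟩ := h
  obtain ⟨y, rfl⟩ := φ.surjective x
  refine ⟨y⁻¹, α⁻¹, inv_mem hα, fun n => ?_⟩
  apply φ.injective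
  rw [inv_inv, map_mul, map_mul, hx, map_inv, MulAut.apply_inv_self, MulAut.apply_inv_self]
  group

/-- the automorphisms of the free product which map each factor to a conjugate by an automorphism in
the given group -/
def Glue (U₁ : Subgroup (MulAut N₁)) (U₂ : Subgroup (MulAut N₂)) :
    Subgroup (MulAut (Monoid.Coprod N₁ N₂)) where
  carrier := {φ | IndIn (Monoid.Coprod.inl : N₁ →* Monoid.Coprod N₁ N₂) U₁ φ ∧
    IndIn (Monoid.Coprod.inr : N₂ →* Monoid.Coprod N₁ N₂) U₂ φ}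
  one_mem' := ⟨IndIn.one _ _, IndIn.one _ _⟩
  mul_mem' := fun h h' => ⟨IndIn.mul h.1 h'.1, IndIn.mul h.2 h'.2⟩
  inv_mem' := fun h => ⟨IndIn.inv h.1, IndIn.inv h.2⟩

variable {U₁ : Subgroup (MulAut N₁)} {U₂ : Subgroup (MulAut N₂)}

theorem toConj_A {φ : MulAut (Monoid.Coprod N₁ N₂)} {x : Monoid.Coprod N₁ N₂} {α : MulAut N₁}
    (hx : ∀ n, φ (Monoid.Coprod.inl n) = x * Monoid.Coprod.inl (α n) * x⁻¹) :
    (A0 N₁ N₂).map φ.toMonoidHom = cj x (A0 N₁ N₂) := by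
  ext y
  rw [mem_cj]
  constructor
  · rintro ⟨_, ⟨n, rfl⟩, rfl⟩
    refine ⟨α n, ?_⟩
    change _ = x⁻¹ * φ (Monoid.Coprod.inl n) * x
    rw [hx]
    group
  · rintro ⟨n, hn⟩
    refine ⟨_, ⟨α⁻¹ n, rfl⟩, ?_⟩
    change φ (Monoid.Coprod.inl (α⁻¹ n)) = y
    rw [hx, MulAut.apply_inv_self, hn]
    group

theorem toConj_B {φ : MulAut (Monoid.Coprod N₁ N₂)} {x : Monoid.Coprod N₁ N₂} {α : MulAut N₂}
    (hx : ∀ n, φ (Monoid.Coprod.inr n) = x * Monoid.Coprod.inr (α n) * x⁻¹) :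
    (B0 N₁ N₂).map φ.toMonoidHom = cj x (B0 N₁ N₂) := by
  ext y
  rw [mem_cj]
  constructor
  · rintro ⟨_, ⟨n, rfl⟩, rfl⟩
    refine ⟨α n, ?_⟩
    change _ = x⁻¹ * φ (Monoid.Coprod.inr n) * x
    rw [hx]
    group
  · rintro ⟨n, hn⟩
    refine ⟨_, ⟨α⁻¹ n, rfl⟩, ?_⟩
    change φ (Monoid.Coprod.inr (α⁻¹ n)) = y
    rw [hx, MulAut.apply_inv_self, hn]
    group

theorem glue_le : Glue U₁ U₂ ≤ FacAut N₁ N₂ := by
  rintro φ ⟨⟨x, α, _, hx⟩, y, β, _, hy⟩
  exact Or.inl ⟨⟨x, toConj_A hx⟩, ⟨y, toConj_B hy⟩⟩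

theorem mp_mem_glue {α : MulAut N₁} {β : MulAut N₂} (hα : α ∈ U₁) (hβ : β ∈ U₂) :
    mp (α, β) ∈ Glue U₁ U₂ := by
  refine ⟨⟨1, α, hα, fun n => ?_⟩, ⟨1, β, hβ, fun n => ?_⟩⟩
  · rw [mp_inl, one_mul, inv_one, mul_one]
  · rw [mp_inr, one_mul, inv_one, mul_one]

theorem conj_mem_glue (x : Monoid.Coprod N₁ N₂) : MulAut.conj x ∈ Glue U₁ U₂ :=
  ⟨⟨x, 1, one_mem _, fun _ => rfl⟩, ⟨x, 1, one_mem _, fun _ => rfl⟩⟩

variable [Nontrivial N₁] [Nontrivial N₂]

/-- decomposition -/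
theorem glue_decomp (h₁ : ∀ n, MulAut.conj n ∈ U₁) (h₂ : ∀ n, MulAut.conj n ∈ U₂)
    {φ : MulAut (Monoid.Coprod N₁ N₂)} (hφ : φ ∈ Glue U₁ U₂) :
    ∃ (z : Monoid.Coprod N₁ N₂) (α : MulAut N₁) (β : MulAut N₂), α ∈ U₁ ∧ β ∈ U₂ ∧
      φ = MulAut.conj z * mp (α, β) := by
  obtain ⟨⟨x, α, hα, hx⟩, y, β, hβ, hy⟩ := id hφ
  have hp : (⟨φ, glue_le hφ⟩ : FacAut N₁ N₂) ∈
      pres (iA (inn : Monoid.Coprod N₁ N₂ →* FacAut N₁ N₂)) (iB inn) := by
    refine ⟨inn x, by rw [iAB]; exact ⟨x, rfl⟩, ?_⟩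
    rw [iA_eq, cj_map_inn, toConj_A hx, map_inn_cj]
  obtain ⟨z, p, hz⟩ := decomp hp
  have hz' : φ = MulAut.conj z * mp p := hz
  refine ⟨z, p.1, p.2, ?_, ?_, hz'⟩
  · have h3 : cj (z⁻¹ * x) (A0 N₁ N₂) = A0 N₁ N₂ := by
      have h4 := toConj_A hx
      rw [hz', map_mul_aut, mp_map_A] at h4
      change cj z (A0 N₁ N₂) = _ at h4
      rw [cj_mul, ← h4, ← cj_mul, inv_mul_cancel, cj_one]
    obtain ⟨a, ha⟩ := normA h3
    have h5 : p.1 = MulAut.conj a * α := by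
      ext n
      apply Monoid.Coprod.inl_injective (N := N₂)
      have h6 := hx n
      rw [hz'] at h6
      change z * mp p (Monoid.Coprod.inl n) * z⁻¹ = _ at h6
      rw [mp_inl] at h6
      change _ = Monoid.Coprod.inl (a * α n * a⁻¹)
      rw [map_mul, map_mul, map_inv, ha]
      have h7 : Monoid.Coprod.inl (p.1 n) = z⁻¹ * (z * Monoid.Coprod.inl (p.1 n) * z⁻¹) * z := by
        group
      rw [h7, h6]
      group
    rw [h5]
    exact mul_mem (h₁ a) hα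
  · have h3 : cj (z⁻¹ * y) (B0 N₁ N₂) = B0 N₁ N₂ := by
      have h4 := toConj_B hy
      rw [hz', map_mul_aut, mp_map_B] at h4
      change cj z (B0 N₁ N₂) = _ at h4
      rw [cj_mul, ← h4, ← cj_mul, inv_mul_cancel, cj_one]
    obtain ⟨a, ha⟩ := normB h3
    have h5 : p.2 = MulAut.conj a * β := by
      ext n
      apply Monoid.Coprod.inr_injective (M := N₁)
      have h6 := hy n
      rw [hz'] at h6
      change z * mp p (Monoid.Coprod.inr n) * z⁻¹ = _ at h6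
      rw [mp_inr] at h6
      change _ = Monoid.Coprod.inr (a * β n * a⁻¹)
      rw [map_mul, map_mul, map_inv, ha]
      have h7 : Monoid.Coprod.inr (p.2 n) = z⁻¹ * (z * Monoid.Coprod.inr (p.2 n) * z⁻¹) * z := by
        group
      rw [h7, h6]
      group
    rw [h5]
    exact mul_mem (h₂ a) hβ

variable (U₁ U₂) in
/-- the inner automorphisms -/
def gin : Monoid.Coprod N₁ N₂ →* Glue U₁ U₂ := MulAut.conj.codRestrict _ conj_mem_glue

theorem gin_inj : Function.Injective (gin U₁ U₂) := fun _ _ h => conj_inj (congrArg Subtype.val h)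

theorem cj_map_gin (φ : Glue U₁ U₂) (P : Subgroup (Monoid.Coprod N₁ N₂)) :
    cj φ (P.map (gin U₁ U₂)) = (P.map φ.1.toMonoidHom).map (gin U₁ U₂) := by
  unfold cj
  rw [Subgroup.map_map, Subgroup.map_map]
  congr 1
  refine MonoidHom.ext fun x => Subtype.ext ?_
  change φ.1 * MulAut.conj x * φ.1⁻¹ = MulAut.conj (φ.1 x)
  rw [aut_conj, mul_inv_cancel_right]

theorem iA_gin : iA (gin U₁ U₂) = (A0 N₁ N₂).map (gin U₁ U₂) := (MonoidHom.map_range _ _).symm

theorem iB_gin : iB (gin U₁ U₂) = (B0 N₁ N₂).map (gin U₁ U₂) := (MonoidHom.map_range _ _).symm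

instance normal_gin : (iA (gin U₁ U₂) ⊔ iB (gin U₁ U₂)).Normal := by
  rw [iAB]
  constructor
  rintro _ ⟨x, rfl⟩ φ
  refine ⟨φ.1 x, ?_⟩
  apply Subtype.ext
  change MulAut.conj (φ.1 x) = φ.1 * MulAut.conj x * φ.1⁻¹
  rw [aut_conj, mul_inv_cancel_right]

theorem perm_gin : Perm (iA (gin U₁ U₂)) (iB (gin U₁ U₂)) := by
  rintro ⟨φ, ⟨⟨x, α, hα, hx⟩, y, β, hβ, hy⟩⟩
  refine ⟨⟨gin U₁ U₂ x, by rw [iAB]; exact ⟨x, rfl⟩, Or.inl ?_⟩,
    ⟨gin U₁ U₂ y, by rw [iAB]; exact ⟨y, rfl⟩, Or.inr ?_⟩⟩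
  · rw [iA_gin, cj_map_gin, cj_map_gin]
    congr 1
    exact toConj_A hx
  · rw [iB_gin, cj_map_gin, cj_map_gin]
    congr 1
    exact toConj_B hy

/-- the automorphisms which preserve the first factor -/
def KA : (N₁ ⋊[U₁.subtype] U₁) × U₂ →* Glue U₁ U₂ where
  toFun p := ⟨MulAut.conj (Monoid.Coprod.inl p.1.left) * mp (p.1.right.1, p.2.1),
    mul_mem (conj_mem_glue _) (mp_mem_glue p.1.right.2 p.2.2)⟩
  map_one' := by
    apply Subtype.ext
    change MulAut.conj (Monoid.Coprod.inl 1) * mp 1 = 1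
    rw [map_one, map_one, map_one, one_mul]
  map_mul' p q := by
    apply Subtype.ext
    have h1 := aut_conj (mp (p.1.right.1, p.2.1)) (Monoid.Coprod.inl q.1.left)
    rw [mp_inl] at h1
    change MulAut.conj (Monoid.Coprod.inl (p.1.left * p.1.right.1 q.1.left)) *
      mp ((p.1.right.1, p.2.1) * (q.1.right.1, q.2.1)) =
      MulAut.conj (Monoid.Coprod.inl p.1.left) * mp (p.1.right.1, p.2.1) *
        (MulAut.conj (Monoid.Coprod.inl q.1.left) * mp (q.1.right.1, q.2.1))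
    rw [map_mul, map_mul, map_mul, mul_assoc, ← mul_assoc (MulAut.conj _) (mp _) (mp _), ← h1]
    simp only [mul_assoc]

/-- the automorphisms which preserve the second factor -/
def KB : (N₂ ⋊[U₂.subtype] U₂) × U₁ →* Glue U₁ U₂ where
  toFun p := ⟨MulAut.conj (Monoid.Coprod.inr p.1.left) * mp (p.2.1, p.1.right.1),
    mul_mem (conj_mem_glue _) (mp_mem_glue p.2.2 p.1.right.2)⟩
  map_one' := by
    apply Subtype.ext
    change MulAut.conj (Monoid.Coprod.inr 1) * mp 1 = 1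
    rw [map_one, map_one, map_one, one_mul]
  map_mul' p q := by
    apply Subtype.ext
    have h1 := aut_conj (mp (p.2.1, p.1.right.1)) (Monoid.Coprod.inr q.1.left)
    rw [mp_inr] at h1
    change MulAut.conj (Monoid.Coprod.inr (p.1.left * p.1.right.1 q.1.left)) *
      mp ((p.2.1, p.1.right.1) * (q.2.1, q.1.right.1)) =
      MulAut.conj (Monoid.Coprod.inr p.1.left) * mp (p.2.1, p.1.right.1) *
        (MulAut.conj (Monoid.Coprod.inr q.1.left) * mp (q.2.1, q.1.right.1))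
    rw [map_mul, map_mul, map_mul, mul_assoc, ← mul_assoc (MulAut.conj _) (mp _) (mp _), ← h1]
    simp only [mul_assoc]

theorem KA_inj : Function.Injective (KA (U₁ := U₁) (U₂ := U₂)) := by
  intro p q h
  have h1 : JA ((⟨p.1.left, p.1.right.1⟩ : Hol N₁), p.2.1) =
      JA ((⟨q.1.left, q.1.right.1⟩ : Hol N₁), q.2.1) := congrArg Subtype.val h
  have h2 := JA_inj h1
  have h3 : p.1.left = q.1.left := congrArg (fun x => x.1.left) h2
  have h4 : p.1.right.1 = q.1.right.1 := congrArg (fun x => x.1.right) h2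
  have h5 : p.2.1 = q.2.1 := congrArg Prod.snd h2
  exact Prod.ext (SemidirectProduct.ext h3 (Subtype.ext h4)) (Subtype.ext h5)

theorem KB_inj : Function.Injective (KB (U₁ := U₁) (U₂ := U₂)) := by
  intro p q h
  have h1 : JB ((⟨p.1.left, p.1.right.1⟩ : Hol N₂), p.2.1) =
      JB ((⟨q.1.left, q.1.right.1⟩ : Hol N₂), q.2.1) := congrArg Subtype.val h
  have h2 := JB_inj h1
  have h3 : p.1.left = q.1.left := congrArg (fun x => x.1.left) h2
  have h4 : p.1.right.1 = q.1.right.1 := congrArg (fun x => x.1.right) h2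
  have h5 : p.2.1 = q.2.1 := congrArg Prod.snd h2
  exact Prod.ext (SemidirectProduct.ext h3 (Subtype.ext h4)) (Subtype.ext h5)

theorem norm_A {C : ∀ (G : Type) [Group G], Prop} (hC : ClosedE C)
    (h₁ : ∀ n, MulAut.conj n ∈ U₁) (h₂ : ∀ n, MulAut.conj n ∈ U₂)
    (c₁ : C (N₁ ⋊[U₁.subtype] U₁)) (c₂ : C U₂) :
    C (Subgroup.normalizer ((iA (gin U₁ U₂)) : Set (Glue U₁ U₂))) := by
  have hex : ∀ s : Subgroup.normalizer ((iA (gin U₁ U₂)) : Set (Glue U₁ U₂)), ∃ p, KA p = s.1 := by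
    intro s
    have hs := mem_normalizer_iff_cj.1 s.2
    obtain ⟨z, α, β, hα, hβ, hp⟩ := glue_decomp h₁ h₂ s.1.2
    have hs' : cj s.1 ((A0 N₁ N₂).map (gin U₁ U₂)) = (A0 N₁ N₂).map (gin U₁ U₂) := by
      rw [← iA_gin]; exact hs
    rw [cj_map_gin] at hs'
    have h3 := Subgroup.map_injective gin_inj hs'
    rw [hp, map_mul_aut, mp_map_A] at h3
    obtain ⟨a, ha⟩ := normA (x := z) h3
    refine ⟨(⟨a, ⟨α, hα⟩⟩, ⟨β, hβ⟩), Subtype.ext ?_⟩
    rw [hp, ← ha]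
    rfl
  choose f hf using hex
  let F : Subgroup.normalizer ((iA (gin U₁ U₂)) : Set (Glue U₁ U₂)) →*
      (N₁ ⋊[U₁.subtype] U₁) × U₂ :=
    { toFun := f
      map_one' := KA_inj (by rw [hf, map_one]; rfl)
      map_mul' := fun s t => KA_inj (by rw [hf, map_mul, hf, hf]; rfl) }
  refine hC.base.of_injective _ _ F ?_ (hC.base.prod _ _ c₁ c₂)
  intro s t h
  apply Subtype.ext
  rw [← hf, ← hf]
  exact congrArg KA h

theorem norm_B {C : ∀ (G : Type) [Group G], Prop} (hC : ClosedE C)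
    (h₁ : ∀ n, MulAut.conj n ∈ U₁) (h₂ : ∀ n, MulAut.conj n ∈ U₂)
    (c₂ : C (N₂ ⋊[U₂.subtype] U₂)) (c₁ : C U₁) :
    C (Subgroup.normalizer ((iB (gin U₁ U₂)) : Set (Glue U₁ U₂))) := by
  have hex : ∀ s : Subgroup.normalizer ((iB (gin U₁ U₂)) : Set (Glue U₁ U₂)), ∃ p, KB p = s.1 := by
    intro s
    have hs := mem_normalizer_iff_cj.1 s.2
    obtain ⟨z, α, β, hα, hβ, hp⟩ := glue_decomp h₁ h₂ s.1.2
    have hs' : cj s.1 ((B0 N₁ N₂).map (gin U₁ U₂)) = (B0 N₁ N₂).map (gin U₁ U₂) := by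
      rw [← iB_gin]; exact hs
    rw [cj_map_gin] at hs'
    have h3 := Subgroup.map_injective gin_inj hs'
    rw [hp, map_mul_aut, mp_map_B] at h3
    obtain ⟨a, ha⟩ := normB (x := z) h3
    refine ⟨(⟨a, ⟨β, hβ⟩⟩, ⟨α, hα⟩), Subtype.ext ?_⟩
    rw [hp, ← ha]
    rfl
  choose f hf using hex
  let F : Subgroup.normalizer ((iB (gin U₁ U₂)) : Set (Glue U₁ U₂)) →*
      (N₂ ⋊[U₂.subtype] U₂) × U₁ :=
    { toFun := f
      map_one' := KB_inj (by rw [hf, map_one]; rfl)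
      map_mul' := fun s t => KB_inj (by rw [hf, map_mul, hf, hf]; rfl) }
  refine hC.base.of_injective _ _ F ?_ (hC.base.prod _ _ c₂ c₁)
  intro s t h
  apply Subtype.ext
  rw [← hf, ← hf]
  exact congrArg KB h

/-- **the step** -/
theorem glue_iff {C : ∀ (G : Type) [Group G], Prop} (hC : ClosedE C)
    (h₁ : ∀ n, MulAut.conj n ∈ U₁) (h₂ : ∀ n, MulAut.conj n ∈ U₂) :
    C (Glue U₁ U₂) ↔ C (N₁ ⋊[U₁.subtype] U₁) ∧ C (N₂ ⋊[U₂.subtype] U₂) := by
  constructor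
  · intro h
    constructor
    · refine hC.base.of_injective _ _ (KA.comp (MonoidHom.inl _ U₂) :
        (N₁ ⋊[U₁.subtype] U₁) →* Glue U₁ U₂) ?_ h
      intro s t hst
      exact congrArg Prod.fst (KA_inj hst)
    · refine hC.base.of_injective _ _ (KB.comp (MonoidHom.inl _ U₁) :
        (N₂ ⋊[U₂.subtype] U₂) →* Glue U₁ U₂) ?_ h
      intro s t hst
      exact congrArg Prod.fst (KB_inj hst)
  · rintro ⟨c₁, c₂⟩
    have c₃ : C U₁ := hC.base.of_injective _ _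
      (SemidirectProduct.inr : U₁ →* N₁ ⋊[U₁.subtype] U₁) SemidirectProduct.inr_injective c₁
    have c₄ : C U₂ := hC.base.of_injective _ _
      (SemidirectProduct.inr : U₂ →* N₂ ⋊[U₂.subtype] U₂) SemidirectProduct.inr_injective c₂
    exact (main hC (isFreeProd_of_inj _ gin_inj) (iA_ne_bot _ gin_inj) (iB_ne_bot _ gin_inj)
      perm_gin).2 ⟨norm_A hC h₁ h₂ c₁ c₄, norm_B hC h₁ h₂ c₂ c₃⟩

/-- the semidirect product with the free product -/
theorem semi_iff {C : ∀ (G : Type) [Group G], Prop} (hC : ClosedE C) :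
    C (Monoid.Coprod N₁ N₂ ⋊[(Glue U₁ U₂).subtype] Glue U₁ U₂) ↔ C (Glue U₁ U₂) := by
  constructor
  · intro h
    exact hC.base.of_injective _ _ SemidirectProduct.inr SemidirectProduct.inr_injective h
  · intro h
    let F : Monoid.Coprod N₁ N₂ ⋊[(Glue U₁ U₂).subtype] Glue U₁ U₂ →* Glue U₁ U₂ × Glue U₁ U₂ :=
      { toFun := fun p => (p.right, gin U₁ U₂ p.left * p.right)
        map_one' := by
          refine Prod.ext rfl ?_
          change gin U₁ U₂ 1 * 1 = 1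
          rw [map_one, one_mul]
        map_mul' := by
          intro p q
          refine Prod.ext rfl ?_
          apply Subtype.ext
          change MulAut.conj (p.left * p.right.1 q.left) * (p.right.1 * q.right.1) =
            MulAut.conj p.left * p.right.1 * (MulAut.conj q.left * q.right.1)
          have h1 := aut_conj p.right.1 q.left
          rw [map_mul, mul_assoc, ← mul_assoc (MulAut.conj _) p.right.1, ← h1]
          simp only [mul_assoc] }
    refine hC.base.of_injective _ _ F ?_ (hC.base.prod _ _ h h)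
    intro p q hpq
    have h1 : p.right = q.right := congrArg Prod.fst hpq
    have h2 : gin U₁ U₂ p.left * p.right = gin U₁ U₂ q.left * q.right := congrArg Prod.snd hpq
    rw [h1] at h2
    exact SemidirectProduct.ext (gin_inj (mul_right_cancel h2)) h1

end

end Q171.HI
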