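import Pool.Agent.Q171.HI.Glue
import Pool.Agent.Q171.OF.Stm

/-!
# Hierarchies of free factors: the groups in the statement
-/

set_option autoImplicit false

namespace Q171.HI

open Pool.Agent.Y110.FJ (ClosedE)
open Q171.NF (cj ToConj)
open Q171.OF (Holo)

/-- a nontrivial group -/
structure Gp : Type 1 where
  /-- the type of the elements -/
  El : Type
  [gp : Group El]
  [nt : Nontrivial El]

instance (G : Gp) : Group G.El := G.gp

instance (G : Gp) : Nontrivial G.El := G.nt

/-- finite binary trees with a nontrivial group at each leaf -/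
inductive BT : Type 1 where
  | leaf (A : Gp) : BT
  | node (l r : BT) : BT

/-- the free product of two nontrivial groups -/
def fp (G H : Gp) : Gp where
  El := Monoid.Coprod G.El H.El
  gp := inferInstance
  nt := (Monoid.Coprod.inl_injective (M := G.El) (N := H.El)).nontrivial

/-- the free product of the groups at the leaves -/
def BT.grp : BT → Gp
  | leaf A => A
  | node l r => fp l.grp r.grp

/-- the embedding of the left factor -/
def BT.inL (l r : BT) : l.grp.El →* (node l r).grp.El :=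
  (Monoid.Coprod.inl : l.grp.El →* Monoid.Coprod l.grp.El r.grp.El)

/-- the embedding of the right factor -/
def BT.inR (l r : BT) : r.grp.El →* (node l r).grp.El :=
  (Monoid.Coprod.inr : r.grp.El →* Monoid.Coprod l.grp.El r.grp.El)

/-- the free factors which belong to the vertices of the tree: the free products of the groups at
the leaves above a vertex -/
def BT.factors : (t : BT) → Set (Subgroup t.grp.El)
  | leaf _ => {⊤}
  | node l r => {⊤} ∪ (Subgroup.map (inL l r) '' l.factors ∪ Subgroup.map (inR l r) '' r.factors)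

/-- the groups at the leaves -/
def BT.leaves : BT → Set Gp
  | leaf A => {A}
  | node l r => l.leaves ∪ r.leaves

/-- the automorphism maps each of the free factors of the tree to a conjugate of itself -/
def Keeps (t : BT) (φ : MulAut t.grp.El) : Prop := ∀ H ∈ t.factors, ToConj φ H H

theorem keeps_one (t : BT) : Keeps t 1 := fun _ _ => ToConj.one _

theorem keeps_mul (t : BT) (φ ψ : MulAut t.grp.El) (h : Keeps t φ) (h' : Keeps t ψ) :
    Keeps t (φ * ψ) := fun H hH => ToConj.mul (h' H hH) (h H hH)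

theorem keeps_inv (t : BT) (φ : MulAut t.grp.El) (h : Keeps t φ) : Keeps t φ⁻¹ :=
  fun H hH => (h H hH).inv

/-- the automorphisms which map each of the free factors of the tree to a conjugate of itself -/
def HAut (t : BT) : Subgroup (MulAut t.grp.El) where
  carrier := {φ | Keeps t φ}
  one_mem' := keeps_one t
  mul_mem' := fun h h' => keeps_mul t _ _ h h'
  inv_mem' := fun h => keeps_inv t _ h

theorem top_mem (t : BT) : ⊤ ∈ t.factors := by
  cases t with
  | leaf A => rfl
  | node l r => exact Or.inl rfl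

theorem ne_bot {t : BT} : ∀ H ∈ t.factors, H ≠ ⊥ := by
  induction t with
  | leaf A =>
    intro H hH
    have h1 : H = ⊤ := hH
    rw [h1]
    exact top_ne_bot
  | node l r ihl ihr =>
    intro H hH
    rcases hH with h1 | ⟨K, hK, rfl⟩ | ⟨K, hK, rfl⟩
    · have h2 : H = ⊤ := h1
      rw [h2]
      exact top_ne_bot
    · intro h
      exact ihl K hK ((Subgroup.map_eq_bot_iff_of_injective _
        Monoid.Coprod.inl_injective).1 h)
    · intro h
      exact ihr K hK ((Subgroup.map_eq_bot_iff_of_injective _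
        Monoid.Coprod.inr_injective).1 h)

theorem conj_mem_HAut (t : BT) (n : t.grp.El) : MulAut.conj n ∈ HAut t :=
  fun _ _ => ⟨n, rfl⟩

section

variable {N₁ N₂ : Type} [Group N₁] [Group N₂] [Nontrivial N₁] [Nontrivial N₂]

open Q171.NF
open Q27.FJT

/-- the first factor is malnormal -/
theorem malA {x : Monoid.Coprod N₁ N₂} {n m : N₁} (hn : n ≠ 1)
    (h : x * Monoid.Coprod.inl n * x⁻¹ = Monoid.Coprod.inl m) : x ∈ A0 N₁ N₂ := by
  have hx : x ∈ A0 N₁ N₂ ⊔ B0 N₁ N₂ := by rw [sup0]; trivial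
  by_contra hc
  have h1 : (Monoid.Coprod.inl m : Monoid.Coprod N₁ N₂) = 1 := by
    refine eq_one_of_mem (isFreeProd0 N₁ N₂) (u := vA _ _ ⟨x, hx⟩) (v := vA _ _ 1) ?_ ?_ ?_
    · intro h2
      rw [eq_comm, vA_eq, Subgroup.mem_subgroupOf] at h2
      apply hc
      simpa using h2
    · rw [th_A, mem_cj, ← h]
      refine ⟨n, ?_⟩
      group
    · rw [th_A, OneMemClass.coe_one, cj_one]
      exact ⟨m, rfl⟩
  apply hn
  apply Monoid.Coprod.inl_injective (N := N₂)
  rw [map_one]
  rw [h1] at h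
  have h3 : (Monoid.Coprod.inl n : Monoid.Coprod N₁ N₂) =
    x⁻¹ * (x * Monoid.Coprod.inl n * x⁻¹) * x := by group
  rw [h3, h]
  group

/-- the second factor is malnormal -/
theorem malB {x : Monoid.Coprod N₁ N₂} {n m : N₂} (hn : n ≠ 1)
    (h : x * Monoid.Coprod.inr n * x⁻¹ = Monoid.Coprod.inr m) : x ∈ B0 N₁ N₂ := by
  have hx : x ∈ A0 N₁ N₂ ⊔ B0 N₁ N₂ := by rw [sup0]; trivial
  by_contra hc
  have h1 : (Monoid.Coprod.inr m : Monoid.Coprod N₁ N₂) = 1 := by
    refine eq_one_of_mem (isFreeProd0 N₁ N₂) (u := vB _ _ ⟨x, hx⟩) (v := vB _ _ 1) ?_ ?_ ?_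
    · intro h2
      rw [eq_comm, vB_eq, Subgroup.mem_subgroupOf] at h2
      apply hc
      simpa using h2
    · rw [th_B, mem_cj, ← h]
      refine ⟨n, ?_⟩
      group
    · rw [th_B, OneMemClass.coe_one, cj_one]
      exact ⟨m, rfl⟩
  apply hn
  apply Monoid.Coprod.inr_injective (M := N₁)
  rw [map_one]
  rw [h1] at h
  have h3 : (Monoid.Coprod.inr n : Monoid.Coprod N₁ N₂) =
    x⁻¹ * (x * Monoid.Coprod.inr n * x⁻¹) * x := by group
  rw [h3, h]
  group

end

/-- restriction of an automorphism to an embedded subgroup -/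
theorem exists_restrict {N P : Type} [Group N] [Group P] {f : N →* P}
    (hf : Function.Injective f) {φ : MulAut P} {x : P}
    (h : f.range.map φ.toMonoidHom = cj x f.range) :
    ∃ α : MulAut N, ∀ n, φ (f n) = x * f (α n) * x⁻¹ := by
  have h1 : ∀ n, ∃ m, φ (f n) = x * f m * x⁻¹ := by
    intro n
    have h2 : φ (f n) ∈ cj x f.range := by
      rw [← h]
      exact ⟨_, ⟨n, rfl⟩, rfl⟩
    rw [Q171.NF.mem_cj] at h2
    obtain ⟨m, hm⟩ := h2
    refine ⟨m, ?_⟩
    rw [hm]
    group
  have h2 : ∀ m, ∃ n, φ (f n) = x * f m * x⁻¹ := by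
    intro m
    have h3 : x * f m * x⁻¹ ∈ f.range.map φ.toMonoidHom := by
      rw [h, Q171.NF.mem_cj]
      refine ⟨m, ?_⟩
      group
    obtain ⟨_, ⟨n, rfl⟩, hn⟩ := h3
    exact ⟨n, hn⟩
  choose a ha using h1
  choose b hb using h2
  have hc : ∀ n m, x * f n * x⁻¹ = x * f m * x⁻¹ → n = m := by
    intro n m hnm
    exact hf (mul_left_cancel (mul_right_cancel hnm))
  refine ⟨{ toFun := a, invFun := b, left_inv := ?_, right_inv := ?_, map_mul' := ?_ }, ha⟩
  · intro n
    apply hf
    apply φ.injective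
    rw [hb, ← ha]
  · intro n
    apply hc
    rw [← ha, hb]
  · intro n m
    apply hc
    rw [← ha, map_mul, map_mul, ha, ha, map_mul]
    group

theorem map_of_restrict {N P : Type} [Group N] [Group P] {f : N →* P} {φ : MulAut P} {x : P}
    {α : MulAut N} (h : ∀ n, φ (f n) = x * f (α n) * x⁻¹) (H : Subgroup N) :
    (H.map f).map φ.toMonoidHom = cj x ((H.map α.toMonoidHom).map f) := by
  ext y
  rw [Q171.NF.mem_cj]
  constructor
  · rintro ⟨_, ⟨n, hn, rfl⟩, rfl⟩
    refine ⟨α n, ⟨n, hn, rfl⟩, ?_⟩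
    change _ = x⁻¹ * φ (f n) * x
    rw [h]
    group
  · rintro ⟨_, ⟨n, hn, rfl⟩, h2⟩
    refine ⟨f n, ⟨n, hn, rfl⟩, ?_⟩
    change φ (f n) = y
    rw [h]
    change f (α n) = _ at h2
    rw [h2]
    group

theorem map_cj {N P : Type} [Group N] [Group P] (f : N →* P) (a : N) (H : Subgroup N) :
    (cj a H).map f = cj (f a) (H.map f) := by
  unfold cj
  rw [Subgroup.map_map, Subgroup.map_map]
  congr 1
  ext n
  change f (a * n * a⁻¹) = f a * f n * (f a)⁻¹
  rw [map_mul, map_mul, map_inv]

/-- one factor -/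
theorem ind_iff {N P : Type} [Group N] [Group P] {f : N →* P} (hf : Function.Injective f)
    (hmal : ∀ (x : P) (n m : N), n ≠ 1 → x * f n * x⁻¹ = f m → x ∈ f.range)
    {F : Set (Subgroup N)} (hF : ⊤ ∈ F) (hF' : ∀ H ∈ F, H ≠ ⊥) {U : Subgroup (MulAut N)}
    (hU : ∀ α, α ∈ U ↔ ∀ H ∈ F, ToConj α H H) (φ : MulAut P) :
    IndIn f U φ ↔ ∀ H ∈ Subgroup.map f '' F, ToConj φ H H := by
  constructor
  · rintro ⟨x, α, hα, hx⟩ _ ⟨H, hH, rfl⟩
    obtain ⟨a, ha⟩ := (hU α).1 hα H hH
    refine ⟨x * f a, ?_⟩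
    rw [map_of_restrict hx, ha, map_cj, Q171.NF.cj_mul]
  · intro h
    obtain ⟨x, hx⟩ := h _ ⟨⊤, hF, rfl⟩
    rw [← MonoidHom.range_eq_map] at hx
    obtain ⟨α, hα⟩ := exists_restrict hf hx
    refine ⟨x, α, ?_, hα⟩
    rw [hU]
    intro H hH
    obtain ⟨y, hy⟩ := h _ ⟨H, hH, rfl⟩
    rw [map_of_restrict hα] at hy
    have h1 : (H.map α.toMonoidHom).map f = cj (x⁻¹ * y) (H.map f) := by
      rw [Q171.NF.cj_mul, ← hy, ← Q171.NF.cj_mul, inv_mul_cancel, Q171.NF.cj_one]
    obtain ⟨⟨n, hn⟩, hn1⟩ := Subgroup.ne_bot_iff_exists_ne_one.1 (hF' H hH)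
    have hn2 : n ≠ 1 := fun h => hn1 (Subtype.ext h)
    have h2 : (x⁻¹ * y) * f n * (x⁻¹ * y)⁻¹ ∈ cj (x⁻¹ * y) (H.map f) := by
      rw [Q171.NF.mem_cj]
      refine ⟨n, hn, ?_⟩
      group
    rw [← h1] at h2
    obtain ⟨m, _, hm⟩ := h2
    obtain ⟨a, ha⟩ := hmal _ n m hn2 hm.symm
    refine ⟨a, ?_⟩
    rw [← ha, ← map_cj] at h1
    exact Subgroup.map_injective hf h1

theorem HAut_node (l r : BT) : HAut (BT.node l r) = (Glue (HAut l) (HAut r) :
    Subgroup (MulAut (Monoid.Coprod l.grp.El r.grp.El))) := by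
  ext φ
  have h1 : IndIn (BT.inL l r) (HAut l) φ ↔
      ∀ H ∈ Subgroup.map (BT.inL l r) '' l.factors, ToConj φ H H :=
    ind_iff Monoid.Coprod.inl_injective (fun x n m hn h => malA hn h) (top_mem l)
      ne_bot (fun _ => Iff.rfl) φ
  have h2 : IndIn (BT.inR l r) (HAut r) φ ↔
      ∀ H ∈ Subgroup.map (BT.inR l r) '' r.factors, ToConj φ H H :=
    ind_iff Monoid.Coprod.inr_injective (fun x n m hn h => malB hn h) (top_mem r)
      ne_bot (fun _ => Iff.rfl) φ
  constructor
  · intro h
    exact ⟨h1.2 fun H hH => h H (Or.inr (Or.inl hH)), h2.2 fun H hH => h H (Or.inr (Or.inr hH))⟩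
  · rintro ⟨h3, h4⟩ H (h5 | h5 | h5)
    · have h6 : H = ⊤ := h5
      rw [h6]
      refine ⟨1, ?_⟩
      rw [Q171.NF.cj_one]
      exact Subgroup.map_top_of_surjective _ φ.surjective
    · exact h1.1 h3 H h5
    · exact h2.1 h4 H h5

theorem semi_congr {N : Type} [Group N] {C : ∀ (G : Type) [Group G], Prop} {U V : Subgroup (MulAut N)}
    (h : U = V) (hC : C (N ⋊[U.subtype] U)) : C (N ⋊[V.subtype] V) := by
  subst h
  exact hC

theorem sub_congr {N : Type} [Group N] {C : ∀ (G : Type) [Group G], Prop} {U V : Subgroup N}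
    (h : U = V) (hC : C U) : C V := by
  subst h
  exact hC

/-- the induction -/
theorem semi_iff_leaves {C : ∀ (G : Type) [Group G], Prop} (hC : ClosedE C) (t : BT) :
    C (t.grp.El ⋊[(HAut t).subtype] HAut t) ↔ ∀ A ∈ t.leaves, C (Holo A.El) := by
  induction t with
  | leaf A =>
    have h1 : HAut (BT.leaf A) = ⊤ := by
      rw [eq_top_iff]
      intro φ _ H hH
      have h6 : H = ⊤ := hH
      rw [h6]
      refine ⟨1, ?_⟩
      rw [Q171.NF.cj_one]
      exact Subgroup.map_top_of_surjective _ φ.surjective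
    have h2 : (∀ B ∈ (BT.leaf A).leaves, C (Holo B.El)) ↔ C (Holo A.El) := by
      constructor
      · intro h
        exact h A rfl
      · intro h B hB
        have h3 : B = A := hB
        rw [h3]
        exact h
    rw [h2]
    constructor
    · intro h
      have h3 := semi_congr h1 h
      let F : Holo A.El →* A.El ⋊[(⊤ : Subgroup (MulAut A.El)).subtype] (⊤ : Subgroup (MulAut A.El)) :=
        { toFun := fun p => ⟨p.left, ⟨p.right, trivial⟩⟩
          map_one' := rfl
          map_mul' := fun p q => rfl }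
      refine hC.base.of_injective _ _ F ?_ h3
      intro p q hpq
      exact SemidirectProduct.ext (congrArg (fun s => s.left) hpq)
        (congrArg (fun s => s.right.1) hpq)
    · intro h
      apply semi_congr h1.symm
      let F : A.El ⋊[(⊤ : Subgroup (MulAut A.El)).subtype] (⊤ : Subgroup (MulAut A.El)) →* Holo A.El :=
        { toFun := fun p => (⟨p.left, p.right.1⟩ : A.El ⋊[MonoidHom.id (MulAut A.El)] MulAut A.El)
          map_one' := rfl
          map_mul' := fun p q => rfl }
      refine hC.base.of_injective _ _ F ?_ h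
      intro p q hpq
      exact SemidirectProduct.ext (congrArg (fun s : A.El ⋊[MonoidHom.id (MulAut A.El)] MulAut A.El =>
        s.left) hpq) (Subtype.ext (congrArg
          (fun s : A.El ⋊[MonoidHom.id (MulAut A.El)] MulAut A.El => s.right) hpq))
  | node l r ihl ihr =>
    have h1 : C ((BT.node l r).grp.El ⋊[(HAut (BT.node l r)).subtype] HAut (BT.node l r)) ↔
        C (Monoid.Coprod l.grp.El r.grp.El ⋊[(Glue (HAut l) (HAut r)).subtype]
          Glue (HAut l) (HAut r)) :=
      ⟨fun h => semi_congr (N := Monoid.Coprod l.grp.El r.grp.El) (HAut_node l r) h,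
        fun h => semi_congr (N := Monoid.Coprod l.grp.El r.grp.El) (HAut_node l r).symm h⟩
    rw [h1, semi_iff hC, glue_iff hC (conj_mem_HAut l) (conj_mem_HAut r), ihl, ihr]
    constructor
    · rintro ⟨h2, h3⟩ A (hA | hA)
      · exact h2 A hA
      · exact h3 A hA
    · intro h
      exact ⟨fun A hA => h A (Or.inl hA), fun A hA => h A (Or.inr hA)⟩

/-- **hierarchies of free factors** -/
theorem main {C : ∀ (G : Type) [Group G], Prop} (hC : ClosedE C) (l r : BT) :
    C (HAut (BT.node l r)) ↔ ∀ A ∈ (BT.node l r).leaves, C (Holo A.El) := by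
  rw [← semi_iff_leaves hC]
  constructor
  · intro h
    have h1 : C (Glue (HAut l) (HAut r)) :=
      sub_congr (N := MulAut (Monoid.Coprod l.grp.El r.grp.El)) (HAut_node l r) h
    exact semi_congr (N := Monoid.Coprod l.grp.El r.grp.El) (HAut_node l r).symm
      ((semi_iff hC).2 h1)
  · intro h
    exact hC.base.of_injective _ _ SemidirectProduct.inr SemidirectProduct.inr_injective h

end Q171.HI
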